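import Pool.Agent.H60.GEN.Back

/-!
# Families of thresholds at a row without cells

The micro input is proved with thresholds `P' r` which depend on the scale `r` of the box. If there
are no cells of these families, then not only the row of `P` but the families themselves are free
from the window near the row (`wfF_of_box`), and they are affine on the triangle below the row with
the slope of the diagonal of `P` (`fam_tri`). (For `P' ≤ P` this is more than `WfU P Q`.)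
-/

set_option autoImplicit false

namespace Pool.STR

open MeasureTheory Set Filter Topology Pool.LEV

/-- The level of the family on the diagonal is near the one of `P`. -/
theorem fam_near {P P' : ℝ → ℝ → ℝ} (hP : Law P) (hL : Law P') {Q g e r t Q' : ℝ}
    (hQ0 : 8 * r < Q) (hQ1 : 8 * r < 1 - Q) (hg : g = Lv P (Q, 0)) (hg0 : 8 * r < g)
    (hg1 : 8 * r < 1 - g) (hr : 0 < r) (ht : t = 4 / 3 * r) (he0 : 0 < e) (he1 : e ≤ 1 / 8)
    (hQ' : |Q' - Q| ≤ r)
    (hle : ∀ a w : ℝ, g - 4 * t ≤ w → w ≤ a → a ≤ g + 4 * t → P' a w ≤ P a w)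
    (hdg : ∀ x : ℝ, |x - g| ≤ 2 * t → ∃ x' : ℝ, x ≤ x' ∧ x' ≤ x + e * t ∧
      P x' x' ≤ P' x' x' + e * t) :
    |Lv P' (Q', 0) - g| ≤ r + 3 * (e * t) := by
  have ht0 : 0 < t := by rw [ht]; linarith
  have hrt : r ≤ t := by rw [ht]; linarith
  have hQ1' := abs_le.1 hQ'
  have hanti : ∀ q : ℝ, 0 ≤ q → q ≤ r → Lv P (Q', q) ≤ Lv P' (Q', q) := fun q hq hq' =>
    lv_anti_loc hP hL hg hr hrt (by rw [ht]; linarith) (by rw [ht]; linarith) hQ' hq hq' hle
  have hLip : ∀ x y : ℝ, |Lv P (x, 0) - Lv P (y, 0)| ≤ |x - y| := by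
    intro x y
    have h1 := (Lv_lip hP).dist_le_mul (x, 0) (y, 0)
    rw [Real.dist_eq, NNReal.coe_one, one_mul, Prod.dist_eq] at h1
    refine h1.trans (max_le le_rfl ?_)
    rw [dist_self]
    exact abs_nonneg _
  have het : 0 < e * t := mul_pos he0 ht0
  have het1 : e * t ≤ 1 / 8 * t := mul_le_mul_of_nonneg_right he1 ht0.le
  have hup : Lv P' (Q', 0) ≤ Lv P (Q', 0) + 3 * (e * t) := by
    have h1 := hLip (Q' + e * t) Q
    have h2 := hLip (Q' + e * t) Q'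
    rw [add_sub_cancel_left, abs_of_pos het] at h2
    have h3 : |Q' + e * t - Q| ≤ r + e * t := by
      rw [abs_le]
      constructor <;> linarith
    rw [← hg] at h1
    have h1' := abs_le.1 (h1.trans h3)
    have h2' := abs_le.1 h2
    obtain ⟨x', k1, k2, k3⟩ := hdg (Lv P (Q' + e * t, 0) + e * t) (by
        rw [abs_le]
        constructor <;> linarith)
    have hx1 : x' ≤ 1 := by linarith
    have h4 : cl (Q' + e * t) ≤ P x' (x' - cl 0) := by
      refine le_of_lev_lt hP (cl_nonneg _) (cl_le_one _) ?_ hx1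
      change Lv P (Q' + e * t, 0) < x'
      linarith
    rw [cl_of_mem (by linarith) (by linarith), cl_of_mem le_rfl zero_le_one, sub_zero] at h4
    have h5 : Lv P' (Q', 0) ≤ x' := by
      refine lev_le (P := P') (Q := cl Q') (q := cl 0) ⟨?_, hx1, Or.inl ?_⟩
      · rw [cl_of_mem le_rfl zero_le_one]
        linarith
      · rw [cl_of_mem le_rfl zero_le_one, sub_zero, cl_of_mem (by linarith) (by linarith)]
        linarith
    linarith
  have h1 := hLip Q' Q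
  rw [← hg] at h1
  have h2 := abs_le.1 (h1.trans hQ')
  have h3 := hanti 0 le_rfl hr.le
  rw [abs_le]
  constructor <;> linarith

/-- The selected families at a row `Q` (`g` its radius): near the threshold `P`, admissible, and
with defects at most `e r`. -/
structure SelB {κ : Type*} {m : ℕ} (P : ℝ → ℝ → ℝ) (PB : κ → ℝ → ℝ → ℝ)
    (R : κ → Fin m → ℝ × ℝ → ℝ) (Ad : ℝ → κ → ℝ → ℝ → ℝ → Prop) (df : κ → ℝ → ℝ → ℝ)
    (C c e Q : ℝ) (k : ℝ → κ) (V : ℝ → Fin m → ℝ) : Prop where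
  box : FamBox P (Lv P (Q, 0)) C (fun r => PB (k r)) (fun r => R (k r)) V
  dg : FamDg P (Lv P (Q, 0)) e (fun r => PB (k r))
  ad : ∃ r₀ : ℝ, 0 < r₀ ∧ ∀ r : ℝ, 0 < r → r < r₀ → Ad c (k r) Q (Lv P (Q, 0)) r ∧
    df (k r) (Lv P (Q, 0)) r ≤ e * r

theorem SelB.mono {κ : Type*} {m : ℕ} {P : ℝ → ℝ → ℝ} {PB : κ → ℝ → ℝ → ℝ}
    {R : κ → Fin m → ℝ × ℝ → ℝ} {Ad : ℝ → κ → ℝ → ℝ → ℝ → Prop} {df : κ → ℝ → ℝ → ℝ}
    {C c e e' Q : ℝ} {k : ℝ → κ} {V : ℝ → Fin m → ℝ} (h : SelB P PB R Ad df C c e Q k V)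
    (he : e ≤ e') : SelB P PB R Ad df C c e' Q k V := by
  obtain ⟨h1, h2, r₀, hr₀, h3⟩ := h
  exact ⟨h1, h2.mono he, r₀, hr₀, fun r hr hr' =>
    ⟨(h3 r hr hr').1, (h3 r hr hr').2.trans (mul_le_mul_of_nonneg_right he hr.le)⟩⟩

/-- **The families are free from the window** near a row, if there are no cells. -/
theorem wfF_of_box {κ : Type*} {m : ℕ} {P : ℝ → ℝ → ℝ} (hP : Law P) {W : Set ℝ} {ρ : ℝ → ℝ}
    {PB : κ → ℝ → ℝ → ℝ} {R : κ → Fin m → ℝ × ℝ → ℝ} {Ad : ℝ → κ → ℝ → ℝ → ℝ → Prop}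
    {df : κ → ℝ → ℝ → ℝ} (hJ : NoJB2 ρ PB R Ad df) (hF : NoFB ρ PB Ad df) {Q : ℝ}
    (hrow : RowD P ρ W Q) {C c : ℝ} (hC : 0 ≤ C) (hc : 0 < c) {e₀ : ℝ} (he₀ : 0 < e₀) :
    ∃ e : ℝ, 0 < e ∧ ∀ (k : ℝ → κ) (V : ℝ → Fin m → ℝ), SelB P PB R Ad df C c e Q k V →
      ∃ r₁ : ℝ, 0 < r₁ ∧ ∀ r : ℝ, 0 < r → r < r₁ → ∀ Q' : ℝ, |Q' - Q| ≤ r / 4 →
        Lv (PB (k r)) (Q', r / 4) ≤ Lv (PB (k r)) (Q', 0) + e₀ * r := by
  obtain ⟨g, hg⟩ : ∃ g, g = Lv P (Q, 0) := ⟨_, rfl⟩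
  obtain ⟨h, hh⟩ : ∃ h, h = 1 - deriv ρ Q := ⟨_, rfl⟩
  have hh0 : 0 < h := by rw [hh]; linarith [hrow.rlt]
  have hg0 := hrow.g0
  have hg1 := hrow.g1
  have hQ0 := hrow.Q0
  have hQ1 := hrow.Q1
  rw [← hg] at hg0 hg1
  obtain ⟨C₀, hC₀, r₆, hr₆, hbd⟩ := diag_bdB hP hQ0 hQ1 hg hg0 hg1 hrow.dif hrow.dpos
  obtain ⟨C', hC'⟩ : ∃ C', C' = max C (4 * C₀ + 1) := ⟨_, rfl⟩
  have hCC : C ≤ C' := by rw [hC']; exact le_max_left _ _
  have hCC' : 4 * C₀ + 1 ≤ C' := by rw [hC']; exact le_max_right _ _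
  have hβ : 0 < e₀ / 2 := half_pos he₀
  obtain ⟨s, hs, M, hM, εF, hεF, HF⟩ := hF c (e₀ / 2) h hc hβ hh0
  obtain ⟨T, hT, H⟩ := cell_at2 (ι := Fin m) (hC.trans hCC) he₀ s hs
  obtain ⟨εJ, hεJ, HJ⟩ := hJ c (e₀ / 2) T h hc hβ hT hh0
  obtain ⟨ε, hε⟩ : ∃ ε, ε = min εF εJ := ⟨_, rfl⟩
  have hε0 : 0 < ε := by rw [hε]; exact lt_min hεF hεJ
  have hεF' : ε ≤ εF := by rw [hε]; exact min_le_left _ _
  have hεJ' : ε ≤ εJ := by rw [hε]; exact min_le_right _ _
  obtain ⟨δ, hδ, H⟩ := H ε hε0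
  obtain ⟨e, he⟩ : ∃ e, e = min (1 / 24) (ε * δ) := ⟨_, rfl⟩
  have hεδ : 0 < ε * δ := mul_pos hε0 hδ
  have he0 : 0 < e := by
    rw [he]
    exact lt_min (by norm_num) hεδ
  have he1 : e ≤ 1 / 24 := by rw [he]; exact min_le_left _ _
  have he2 : e ≤ ε * δ := by rw [he]; exact min_le_right _ _
  refine ⟨e, he0, ?_⟩
  rintro k V ⟨⟨r₀, hr₀, hbox⟩, ⟨r₃, hr₃, hdg⟩, r₄, hr₄, hdf⟩
  obtain ⟨M', hM'⟩ : ∃ M', M' = M + (3 + 4 * (T + 1)) := ⟨_, rfl⟩
  have hM'0 : 0 < M' := by rw [hM']; positivity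
  obtain ⟨r₂, hr₂, hnf⟩ := nfB_of hrow.rdif hrow.rlt hh.le (η := ε * δ) (M := M') hεδ hM'0
  rw [← hg] at hbox hdg hdf
  obtain ⟨ρ', hρ'⟩ : ∃ ρ', ρ' = min (min (min r₀ (min r₃ r₄)) (r₆ / 4)) (min r₂ (min (g / 8)
    (min ((1 - g) / 8) (min (Q / 8) ((1 - Q) / 8))))) := ⟨_, rfl⟩
  have hρ'0 : 0 < ρ' := by
    rw [hρ']
    exact lt_min (lt_min (lt_min hr₀ (lt_min hr₃ hr₄)) (by linarith)) (lt_min hr₂
      (lt_min (by linarith) (lt_min (by linarith) (lt_min (by linarith) (by linarith)))))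
  refine ⟨ρ', hρ'0, fun t ht ht' Q' hQ' => ?_⟩
  have m00 : t < min (min r₀ (min r₃ r₄)) (r₆ / 4) :=
    ht'.trans_le (by rw [hρ']; exact min_le_left _ _)
  have m0 : t < min r₀ (min r₃ r₄) := m00.trans_le (min_le_left _ _)
  have m6' : t < r₆ / 4 := m00.trans_le (min_le_right _ _)
  have m01 : t < r₀ := m0.trans_le (min_le_left _ _)
  have m02 : t < r₃ := m0.trans_le ((min_le_right _ _).trans (min_le_left _ _))
  have m03 : t < r₄ := m0.trans_le ((min_le_right _ _).trans (min_le_right _ _))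
  have m2 : t < r₂ := ht'.trans_le (by rw [hρ']; exact (min_le_right _ _).trans (min_le_left _ _))
  have m3 : t < g / 8 := ht'.trans_le (by
    rw [hρ']; exact (min_le_right _ _).trans ((min_le_right _ _).trans (min_le_left _ _)))
  have m4 : t < (1 - g) / 8 := ht'.trans_le (by
    rw [hρ']
    exact (min_le_right _ _).trans ((min_le_right _ _).trans ((min_le_right _ _).trans
      (min_le_left _ _))))
  have m5 : t < Q / 8 := ht'.trans_le (by
    rw [hρ']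
    exact (min_le_right _ _).trans ((min_le_right _ _).trans ((min_le_right _ _).trans
      ((min_le_right _ _).trans (min_le_left _ _)))))
  have m6 : t < (1 - Q) / 8 := ht'.trans_le (by
    rw [hρ']
    exact (min_le_right _ _).trans ((min_le_right _ _).trans ((min_le_right _ _).trans
      ((min_le_right _ _).trans (min_le_right _ _)))))
  obtain ⟨r, hr⟩ : ∃ r, r = t / 4 := ⟨_, rfl⟩
  have hr0 : 0 < r := by rw [hr]; linarith
  have htr : t = 4 * r := by rw [hr]; ring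
  have hrt : r ≤ t := by rw [hr]; linarith
  rw [← hr] at hQ' ⊢
  by_contra hcon
  push Not at hcon
  obtain ⟨hL, hle, hlv⟩ := hbox t ht m01
  have hdgt := hdg t ht m02
  obtain ⟨t₁, ht₁⟩ : ∃ t₁, t₁ = 4 / 3 * r := ⟨_, rfl⟩
  obtain ⟨e₁, he₁⟩ : ∃ e₁, e₁ = 3 * e := ⟨_, rfl⟩
  have htt : t = 3 * t₁ := by rw [htr, ht₁]; ring
  have hee : e₁ * t₁ = e * t := by rw [he₁, htt]; ring
  have hnear := fam_near (t := t₁) (e := e₁) hP hL (by linarith) (by linarith) hg (by linarith)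
    (by linarith) hr0 ht₁ (by rw [he₁]; linarith) (by rw [he₁]; linarith) hQ'
    (fun a w h1 h2 h3 => hle a w (by linarith) h2 (by linarith))
    (fun x hx => by
      rw [hee]
      exact hdgt x (hx.trans (by linarith)))
  rw [hee] at hnear
  have het1 : e * t ≤ 1 / 6 * r := by
    have h1 : e * t ≤ 1 / 24 * t := mul_le_mul_of_nonneg_right he1 ht.le
    have h2 : 1 / 24 * t = 1 / 6 * r := by rw [htr]; ring
    linarith
  have hinc : e₀ * r ≤ Lv (PB (k t)) (Q', r) - Lv (PB (k t)) (Q', 0) := by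
    have h1 : e₀ * r ≤ e₀ * t := mul_le_mul_of_nonneg_left hrt he₀.le
    linarith
  have hnf := hnf t ht m2
  obtain ⟨hAd, hdfr⟩ := hdf t ht m03
  have hCt : C * (2 * t) ≤ C' * (2 * t) := mul_le_mul_of_nonneg_right hCC (by linarith)
  have hbnd : ∀ y : ℝ × ℝ, g - 7 / 4 * t ≤ y.1 → y.1 ≤ g + t → 0 ≤ y.2 → y.2 ≤ t →
      |Nw (PB (k t)) y - Q| ≤ C' * t := by
    intro y h1 h2 h3 h4
    refine (fam_bd hP hL ht hC₀.le (fun a ha => hbd (4 * t) (by linarith) (by linarith) a ha)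
      (by linarith) (by linarith) he0.le (by linarith) hle hdgt y h1 h2 h3 h4).trans ?_
    exact mul_le_mul_of_nonneg_right hCC' ht.le
  rcases H (PB (k t)) (R (k t)) (V t) Q Q g r t Q' hL hr0 htr (by linarith) (by linarith)
    (by linarith) (by linarith) hQ' (by linarith) hinc
    (fun j => ⟨(hlv j).mono, fun y hy => ((hlv j).bd y hy).trans hCt⟩) hbnd with
    ⟨p, X, al, be, hX, hcell⟩ | ⟨y, X, lamN, muN, lam, mu, hX, hcell⟩
  · have hX0 : 0 < X := (mul_pos hδ ht).trans_le hX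
    have e1 : ε * δ * t ≤ εF * X := by
      have e2 : ε * (δ * t) ≤ εF * X := mul_le_mul hεF' hX (mul_pos hδ ht).le hεF.le
      linarith
    refine HF (k t) Q g t p X al be ht hX0 (by linarith) (by linarith) (by linarith)
      (by linarith) hAd (hcell.mono hX0.le hεF') (fun Q₁ Q₂ h1 h2 h3 => ?_) ?_
    · have hMr : M * t ≤ M' * t := mul_le_mul_of_nonneg_right (by rw [hM']; linarith) ht.le
      exact (hnf Q₁ Q₂ (by linarith) h2 (by linarith)).trans (by linarith)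
    · have e2 : e * t ≤ ε * δ * t := mul_le_mul_of_nonneg_right he2 ht.le
      linarith
  · have hX0 : 0 < X := (mul_pos hδ ht).trans_le hX
    have e1 : ε * δ * t ≤ εJ * X := by
      have e2 : ε * (δ * t) ≤ εJ * X := mul_le_mul hεJ' hX (mul_pos hδ ht).le hεJ.le
      linarith
    have hXr : X ≤ t := by linarith [hcell.dep, hcell.dep']
    have hrw := abs_le.1 hcell.row
    have hTX : 4 * (T + 1) * X ≤ 4 * (T + 1) * t :=
      mul_le_mul_of_nonneg_left hXr (by positivity)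
    have hMr : (3 + 4 * (T + 1)) * t ≤ M' * t :=
      mul_le_mul_of_nonneg_right (by rw [hM']; linarith) ht.le
    have hex : (3 + 4 * (T + 1)) * t = 3 * t + 4 * (T + 1) * t := by ring
    refine HJ (k t) Q g t y X lamN muN lam mu ht (by linarith) (by linarith) (by linarith)
      (by linarith) hAd (hcell.mono hεJ') (fun Q₁ Q₂ h1 h2 h3 => ?_) ?_
    · exact (hnf Q₁ Q₂ (by linarith [hrw.1]) h2 (by linarith [hrw.2])).trans (by linarith)
    · have e2 : e * t ≤ ε * δ * t := mul_le_mul_of_nonneg_right he2 ht.le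
      linarith

/-- **The triangle for families.** `s` is the slope of the diagonal of `P` at the radius `g` of the
row. -/
theorem fam_tri {P : ℝ → ℝ → ℝ} {Q g s C : ℝ} {ι : Type*}
    (hQ0 : 0 < Q) (hQ1 : Q < 1) (hg0 : 0 < g) (hg1 : g < 1)
    (hval : P g g = Q) (hs : 0 ≤ s) (hd : HasDerivAt (fun a => P a a) s g)
    (hP : Law P) {ε : ℝ} (hε : 0 < ε) : ∃ e₁ : ℝ, 0 < e₁ ∧
      ∀ (P' : ℝ → ℝ → ℝ → ℝ) (R : ℝ → ι → ℝ × ℝ → ℝ) (V : ℝ → ι → ℝ),
        FamBox P g C P' R V → FamDg P g e₁ P' →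
        (∃ r₁ : ℝ, 0 < r₁ ∧ ∀ r : ℝ, 0 < r → r < r₁ → ∀ Q' : ℝ, |Q' - Q| ≤ r / 4 →
          Lv (P' r) (Q', r / 4) ≤ Lv (P' r) (Q', 0) + e₁ * r) →
        ∃ r₂ : ℝ, 0 < r₂ ∧ ∀ r : ℝ, 0 < r → r < r₂ → ∀ a w : ℝ,
          g - r / (24 * (s + 1)) ≤ w → w ≤ a → a ≤ g + r / (24 * (s + 1)) →
            |P' r a w - Q - s * (a - g)| ≤ ε * r := by
  obtain ⟨c, hc⟩ : ∃ c : ℝ, c = 1 / (24 * (s + 1)) := ⟨_, rfl⟩
  have hc0 : 0 < c := by rw [hc]; positivity
  have hc8 : c ≤ 1 / 24 := by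
    rw [hc]
    refine one_div_le_one_div_of_le (by norm_num) (by linarith)
  have hsc : s * c ≤ 1 / 24 := by
    rw [hc]
    calc s * (1 / (24 * (s + 1))) = 1 / 24 * (s / (s + 1)) := by field_simp
      _ ≤ 1 / 24 * 1 := by
          refine mul_le_mul_of_nonneg_left ?_ (by norm_num)
          rw [div_le_one (by linarith)]
          linarith
      _ = 1 / 24 := mul_one _
  obtain ⟨η, hη⟩ : ∃ η : ℝ, η = min c (ε / (8 * (s + 1))) := ⟨_, rfl⟩
  have hη0 : 0 < η := by rw [hη]; exact lt_min hc0 (by positivity)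
  have hηc : η ≤ c := by rw [hη]; exact min_le_left _ _
  have hη1 : η ≤ 1 / 24 := hηc.trans hc8
  have hηs : (s + 1) * η ≤ ε / 8 := by
    have h2 : η ≤ ε / (8 * (s + 1)) := by rw [hη]; exact min_le_right _ _
    calc (s + 1) * η ≤ (s + 1) * (ε / (8 * (s + 1))) :=
          mul_le_mul_of_nonneg_left h2 (by linarith)
      _ = ε / 8 := by field_simp
  -- the derivative
  obtain ⟨ε₁, hε₁⟩ : ∃ x : ℝ, x = min 1 (ε / 8) := ⟨_, rfl⟩
  have he0 : 0 < ε₁ := by rw [hε₁]; exact lt_min one_pos (by linarith)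
  have he1 : ε₁ ≤ 1 := by rw [hε₁]; exact min_le_left _ _
  have he8 : ε₁ ≤ ε / 8 := by rw [hε₁]; exact min_le_right _ _
  have hnb := (Asymptotics.isLittleO_iff.1 hd.isLittleO) he0
  rw [Metric.eventually_nhds_iff] at hnb
  obtain ⟨δ, hδ, hdd⟩ := hnb
  have key : ∀ x : ℝ, |x - g| < δ → |P x x - P g g - s * (x - g)| ≤ ε₁ * |x - g| := by
    intro x hx
    have := hdd (y := x) (by rw [Real.dist_eq]; exact hx)
    rw [Real.norm_eq_abs, Real.norm_eq_abs, smul_eq_mul, mul_comm (x - g) s] at this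
    exact this
  refine ⟨η / 4, by linarith, ?_⟩
  rintro P' R V ⟨r₀, hr₀, hbox⟩ ⟨r₃, hr₃, hdg⟩ ⟨r₁, hr₁, hwf⟩
  refine ⟨min (min r₀ (min r₃ r₁)) (min δ (min (min (g / 8) ((1 - g) / 8)) (min (Q / 8)
    ((1 - Q) / 8)))), ?_, fun r hr hrm a w hw1 hw2 hw3 => ?_⟩
  · exact lt_min (lt_min hr₀ (lt_min hr₃ hr₁)) (lt_min hδ (lt_min (lt_min (by linarith)
      (by linarith)) (lt_min (by linarith) (by linarith))))
  have m0 := hrm.trans_le (min_le_left _ _)
  have m01 : r < r₀ := m0.trans_le (min_le_left _ _)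
  have m02 : r < r₃ := m0.trans_le ((min_le_right _ _).trans (min_le_left _ _))
  have m03 : r < r₁ := m0.trans_le ((min_le_right _ _).trans (min_le_right _ _))
  have m1 := hrm.trans_le (min_le_right _ _)
  have m2 : r < δ := m1.trans_le (min_le_left _ _)
  have m3 := m1.trans_le (min_le_right _ _)
  have m4 : r < g / 8 := m3.trans_le ((min_le_left _ _).trans (min_le_left _ _))
  have m5 : r < (1 - g) / 8 := m3.trans_le ((min_le_left _ _).trans (min_le_right _ _))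
  have m6 : r < Q / 8 := m3.trans_le ((min_le_right _ _).trans (min_le_left _ _))
  have m7 : r < (1 - Q) / 8 := m3.trans_le ((min_le_right _ _).trans (min_le_right _ _))
  have hcr : r / (24 * (s + 1)) = c * r := by
    rw [hc]
    ring
  rw [hcr] at hw1 hw3
  have hcr8 : c * r ≤ 1 / 24 * r := mul_le_mul_of_nonneg_right hc8 hr.le
  have hcr0 : 0 < c * r := mul_pos hc0 hr
  obtain ⟨hL, hle, hlv⟩ := hbox r hr m01
  have habs : |a - g| ≤ c * r := by
    rw [abs_le]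
    constructor <;> linarith
  have hεr : 0 < ε * r := mul_pos hε hr
  rw [abs_le]
  constructor
  · -- lower bound
    have hηr0 : 0 < η * r := mul_pos hη0 hr
    have hηr1 : η * r ≤ 1 / 24 * r := mul_le_mul_of_nonneg_right hη1 hr.le
    obtain ⟨x', k1, k2, k3⟩ := hdg r hr m02 (a - η * r) (by
      rw [abs_le]
      obtain ⟨u1, u2⟩ := abs_le.1 habs
      constructor <;> linarith)
    have d1 : |x' - g| ≤ c * r + η * r := by
      rw [abs_le]
      obtain ⟨u1, u2⟩ := abs_le.1 habs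
      constructor <;> linarith
    obtain ⟨d2, d3⟩ := abs_le.1 d1
    have d4 := key x' (by
      refine lt_of_le_of_lt d1 ?_
      linarith)
    rw [hval] at d4
    have hs1 : s * (c * r) ≤ 1 / 24 * r := by
      have := mul_le_mul_of_nonneg_right hsc hr.le
      linarith
    have hs2 : (s + 1) * (η * r) ≤ ε / 8 * r := by
      have := mul_le_mul_of_nonneg_right hηs hr.le
      linarith
    have hs4 : s * (η * r) ≤ 1 / 24 * r :=
      (mul_le_mul_of_nonneg_left (mul_le_mul_of_nonneg_right hηc hr.le) hs).trans hs1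
    have hs5 : ε₁ * |x' - g| ≤ ε₁ * (c * r + η * r) := mul_le_mul_of_nonneg_left d1 he0.le
    have hs6 : ε₁ * (c * r + η * r) ≤ 1 * (c * r + η * r) :=
      mul_le_mul_of_nonneg_right he1 (by linarith)
    have hs7 : ε₁ * (c * r + η * r) ≤ ε / 8 * (c * r + η * r) :=
      mul_le_mul_of_nonneg_right he8 (by linarith)
    have hs8 : ε / 8 * (c * r + η * r) ≤ ε / 8 * r :=
      mul_le_mul_of_nonneg_left (by linarith) (by linarith)
    obtain ⟨d5, d6⟩ := abs_le.1 d4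
    obtain ⟨Q', hQ'⟩ : ∃ x : ℝ, x = P x' x' - η / 4 * r := ⟨_, rfl⟩
    have e1 : s * (x' - g) ≤ s * (c * r + η * r) := mul_le_mul_of_nonneg_left d3 hs
    have e2 : s * (-(c * r + η * r)) ≤ s * (x' - g) := mul_le_mul_of_nonneg_left d2 hs
    have e3 : |Q' - Q| ≤ r / 4 := by
      rw [hQ', abs_le]
      constructor <;> linarith
    obtain ⟨e4, e5⟩ := abs_le.1 e3
    have e6 := hwf r hr m03 Q' e3
    have hQ'0 : 0 ≤ Q' := by linarith
    have hQ'1 : Q' ≤ 1 := by linarith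
    have hx0 : 0 ≤ x' := by
      obtain ⟨u1, u2⟩ := abs_le.1 habs
      linarith
    have e7 : Lv (P' r) (Q', 0) ≤ x' := by
      rw [Lv_eq le_rfl zero_le_one hQ'0 hQ'1]
      refine lev_le ⟨hx0, by linarith, Or.inl ?_⟩
      rw [sub_zero, hQ']
      linarith
    have e8 : Lv (P' r) (Q', a - w) ≤ Lv (P' r) (Q', r / 4) :=
      Lv_mono hL ⟨le_rfl, by
        show a - w ≤ r / 4
        linarith⟩
    have e9 : Lv (P' r) (Q', a - w) < a := by linarith
    rw [Lv_eq (by linarith) (by linarith) hQ'0 hQ'1] at e9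
    have e10 := le_of_lev_lt hL (by linarith) (by linarith) e9 (by linarith)
    rw [sub_sub_cancel, hQ'] at e10
    have e11 : s * (a - η * r - g) ≤ s * (x' - g) := mul_le_mul_of_nonneg_left (by linarith) hs
    have e12 : s * (a - η * r - g) = s * (a - g) - s * (η * r) := by ring
    rw [e12] at e11
    have e13 : (s + 1) * (η * r) = s * (η * r) + η * r := by ring
    rw [e13] at hs2
    linarith
  · have hcr4 : c * r ≤ 4 * r := by linarith
    have f0 := hle a w (by linarith) hw2 (by linarith)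
    have f1 := hP.mono_w a w a (by linarith) hw2 le_rfl (by linarith)
    have f2 := key a (by linarith)
    rw [hval] at f2
    have f3 : ε₁ * |a - g| ≤ ε / 8 * r :=
      mul_le_mul he8 (habs.trans (by linarith)) (abs_nonneg _) (by linarith)
    have f4 := (abs_le.1 (f2.trans f3)).2
    linarith

/-- **The selected families are affine on the triangle below a row**, with the slope of the
diagonal: the form used in the static case with dynamic coordinates. `e` is chosen after `ε`, the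
selection after `e`. -/
theorem tri_of_box {κ : Type*} {m : ℕ} {P : ℝ → ℝ → ℝ} (hP : Law P) {W : Set ℝ} {ρ : ℝ → ℝ}
    {PB : κ → ℝ → ℝ → ℝ} {R : κ → Fin m → ℝ × ℝ → ℝ} {Ad : ℝ → κ → ℝ → ℝ → ℝ → Prop}
    {df : κ → ℝ → ℝ → ℝ} (hJ : NoJB2 ρ PB R Ad df) (hF : NoFB ρ PB Ad df) {Q : ℝ}
    (hrow : RowD P ρ W Q) {s : ℝ} (hs : 0 ≤ s) (hval : P (Lv P (Q, 0)) (Lv P (Q, 0)) = Q)
    (hd : HasDerivAt (fun a => P a a) s (Lv P (Q, 0))) {C c : ℝ} (hC : 0 ≤ C) (hc : 0 < c)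
    {ε : ℝ} (hε : 0 < ε) : ∃ e : ℝ, 0 < e ∧ ∀ (k : ℝ → κ) (V : ℝ → Fin m → ℝ),
      SelB P PB R Ad df C c e Q k V → ∃ r₂ : ℝ, 0 < r₂ ∧ ∀ r : ℝ, 0 < r → r < r₂ → ∀ a w : ℝ,
        Lv P (Q, 0) - r / (24 * (s + 1)) ≤ w → w ≤ a → a ≤ Lv P (Q, 0) + r / (24 * (s + 1)) →
          |PB (k r) a w - Q - s * (a - Lv P (Q, 0))| ≤ ε * r := by
  obtain ⟨e₁, he₁, H⟩ := fam_tri (C := C) (ι := Fin m) hrow.Q0 hrow.Q1 hrow.g0 hrow.g1 hval hs hd
    hP hε
  obtain ⟨e, he, H'⟩ := wfF_of_box hP hJ hF hrow hC hc he₁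
  refine ⟨min e e₁, lt_min he he₁, fun k V hk => ?_⟩
  exact H _ _ V hk.box (hk.dg.mono (min_le_right _ _)) (H' k V (hk.mono (min_le_left _ _)))

end Pool.STR
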